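import Pool.Agent.H71.FX.Targets2

/-!
# Prefix vocabulary classes: row NG, structures with chosen witnesses
-/

set_option autoImplicit false

namespace Pool.Agent.H38.FX

open Pool.Agent.H71.FX Pool.Agent.H71.PF

/-- structures with chosen witnesses, the other direction -/
theorem pf_NG (fa : T_FA) (fe : T_FE) (fv : T_FV) (ss : T_SS) : T_NG := by
  intro i0 a b r φ hvars hvoc β _ _ m hwf hsat
  classical
  have hn : 0 < Nat.card β := Nat.card_pos
  set n : ℕ := Nat.card β with hndef
  let E : β ≃ Fin n := Finite.equivFin β
  let x0 : β := Classical.arbitrary β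
  let f : ℕ → List (Fin n) → Fin n := fun _ l => (l.map (fun z => E (m.f (E.symm z)))).headD (E x0)
  let R : ℕ → List (Fin n) → Prop := fun i l => m.R i (l.map E.symm)
  have key : ∀ x : β, φ.Sat f R (fun i => E (m.w x i)) := by
    intro x
    refine (ss β (Fin n) E E.injective (m.F x) f m.R R (UF i0) r ?_ ?_ φ hvoc (m.w x)).2 (hsat x)
    · rintro i l ⟨-, hl⟩
      obtain ⟨z, rfl⟩ := List.length_eq_one_iff.1 hl
      simp [f, Sk.F]
    · intro i l _ _
      simp [R, List.map_map]
  refine ⟨hn, f, R, fun v => ?_⟩
  rw [fa]
  refine ⟨fun i => if i < a then E (m.w x0 i) else v i, fun i hi => if_neg (not_lt.2 hi), ?_⟩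
  intro y
  rw [fe]
  refine ⟨fun i => if i < a + 1 + b then E (m.w (E.symm y) i) else
    Function.update (fun i => if i < a then E (m.w x0 i) else v i) a y i, ?_, ?_⟩
  · intro i hi
    by_cases h1 : i < a + 1 + b
    · have h2 : i < a + 1 := by
        rcases hi with h | h
        · exact h
        · exact absurd h (not_le.2 h1)
      simp only [if_pos h1]
      rcases Nat.lt_or_ge i a with h3 | h3
      · rw [Function.update_of_ne (by omega), if_pos h3, hwf.1 (E.symm y) x0 i h3]
      · have h4 : i = a := by omega
        subst h4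
        rw [Function.update_self, hwf.2, Equiv.apply_symm_apply]
    · simp only [if_neg h1]
  · refine (fv (Fin n) f R φ (a + 1 + b) (fun i => E (m.w (E.symm y) i)) _ hvars ?_).1
      (key (E.symm y))
    intro i hi
    simp only [if_pos hi]

end Pool.Agent.H38.FX
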