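import Pool.Agent.H71.FX.Targets2

/-!
# Prefix vocabulary classes: row RN, a run of good positions
-/

set_option autoImplicit false

namespace Pool.Agent.H38.FX

open Pool.Agent.H71.FX

/-- a run of good positions -/
theorem pf_RN : T_RN := by
  intro b M N bad hb hN
  by_contra hcon
  push Not at hcon
  have hblock : ∀ c : Fin (b + 1), ∃ s, s ≤ M ∧ (c : ℕ) * (M + 1) + s ∈ bad := by
    intro c
    refine hcon ((c : ℕ) * (M + 1)) ?_
    have h1 : (c : ℕ) + 1 ≤ b + 1 := c.2
    have h2 : ((c : ℕ) + 1) * (M + 1) ≤ (b + 1) * (M + 1) := Nat.mul_le_mul_right _ h1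
    have h3 : ((c : ℕ) + 1) * (M + 1) = (c : ℕ) * (M + 1) + (M + 1) := by ring
    omega
  choose s hs hmem using hblock
  have hdiv : ∀ c : Fin (b + 1), ((c : ℕ) * (M + 1) + s c) / (M + 1) = c := by
    intro c
    rw [Nat.add_comm, Nat.add_mul_div_right _ _ (Nat.succ_pos M),
      Nat.div_eq_of_lt (by have := hs c; omega), zero_add]
  have hcard : (Finset.univ : Finset (Fin (b + 1))).card ≤ bad.card := by
    refine Finset.card_le_card_of_injOn (fun c => (c : ℕ) * (M + 1) + s c) (fun c _ => hmem c) ?_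
    intro c _ c' _ h
    have h1 := congrArg (· / (M + 1)) h
    simp only [hdiv] at h1
    exact Fin.ext h1
  rw [Finset.card_univ, Fintype.card_fin] at hcard
  omega

end Pool.Agent.H38.FX
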